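import Pool.Agent.Helper7.UNI.DecD
import Pool.Agent.Helper29.UD.Letter
import Pool.Agent.Helper57.EV.Bridge
import Pool.Agent.Helper3.EVC.Defs

/-!
# Lower and upper bounds of `P = half ∇` on `(0, 600]`, with explicit dependence on the number of strands

`exp (L A(r) - E) ≤ P(r)` and `|P(r e^{iθ})| ≤ exp (L A(r) + E - κ L √r (1 - cos θ))` with `E = 12 (n + 1) log L`.
-/

set_option autoImplicit false

namespace Pool.Agent.Helper29.PL

open Polynomial Pool.Agent.Helper76.Conway.Top Pool.Agent.Helper99.ZB Pool.Agent.Helper57.EV Pool.Agent.Helper7.UNI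

theorem hUD : UD := fun s σ h0 h1 hs h2 n w hw => Pool.Agent.Helper29.UD.ud s σ h0 h1 hs h2 n w hw

theorem Yf_eq {r : ℝ} (hr : 0 ≤ r) : Yf r = Real.exp (EVC.A r) := by
  unfold Yf EVC.A
  rw [Real.exp_arsinh]
  have h1 : √(1 + (√r / 2) ^ 2) = √(r + 4) / 2 := by
    rw [div_pow, Real.sq_sqrt hr, show 1 + r / 2 ^ 2 = (r + 4) / 2 ^ 2 by ring, Real.sqrt_div (by linarith),
      Real.sqrt_sq (by norm_num)]
  rw [h1]
  ring

theorem Yf_pow {r : ℝ} (hr : 0 ≤ r) (L : ℕ) : Yf r ^ L = Real.exp (L * EVC.A r) := by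
  rw [Yf_eq hr, ← Real.exp_nat_mul]

theorem A_nonneg (r : ℝ) : 0 ≤ EVC.A r := by
  unfold EVC.A
  rw [Real.arsinh_nonneg_iff]
  positivity

theorem A_le (r : ℝ) : EVC.A r ≤ √r / 2 := by
  unfold EVC.A
  have h0 : 0 ≤ √r / 2 := by positivity
  have h1 : Real.arsinh (√r / 2) ≤ Real.arsinh (Real.sinh (√r / 2)) :=
    Real.arsinh_le_arsinh.2 (Real.self_le_sinh_iff.2 h0)
  rwa [Real.arsinh_sinh] at h1

theorem A_mono {r t : ℝ} (h : r ≤ t) : EVC.A r ≤ EVC.A t := by
  unfold EVC.A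
  apply Real.arsinh_le_arsinh.2
  have := Real.sqrt_le_sqrt h
  linarith

/-- `E = 12 (n + 1) log L` -/
noncomputable def EE (n L : ℕ) : ℝ := 12 * (n + 1) * Real.log L

section words

variable {G : ℕ → Type} [∀ n, Group (G n)] {sg : ∀ n, ℕ → G n} {N : ∀ n, G n → ℤ[X]}

theorem real_half {p : ℤ[X]} (hev : ∀ z : ℂ, aeval z p = z ^ p.natTrailingDegree * aeval (z ^ 2) (half p)) (x : ℝ) :
    aeval x p = x ^ p.natTrailingDegree * (half p).eval (x ^ 2) := by
  have h1 := hev x
  have h2 : aeval (x : ℂ) p = ((aeval x p : ℝ) : ℂ) := by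
    have := aeval_algebraMap_apply (A := ℝ) (B := ℂ) (x := x) (p := p)
    simpa using this
  have h3 : aeval ((x : ℂ) ^ 2) (half p) = (((half p).eval (x ^ 2) : ℝ) : ℂ) := by
    rw [← Complex.ofReal_pow, ← Complex.coe_algebraMap, aeval_algebraMap_apply, coe_aeval_eq_eval]
  rw [h2, h3] at h1
  exact_mod_cast h1

theorem trailing_le (h : Mk G sg N) {n : ℕ} {w : List ℕ} (hw : ∀ a ∈ w, a < n) (hf : ∀ a < n, a ∈ w) :
    (N n (V (sg n) w)).natTrailingDegree ≤ n := by
  obtain ⟨p, hp⟩ : ∃ p, p = N n (V (sg n) w) := ⟨_, rfl⟩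
  obtain ⟨h0, -, hnn, h1, -, hev, -⟩ := word h hw hf hp
  rw [← hp]
  by_contra hcon
  push Not at hcon
  obtain ⟨M, hM⟩ : ∃ M, M = (half p).eval 1 := ⟨_, rfl⟩
  have hM0 : 0 ≤ M := by
    rw [hM, eval_eq_sum_range]
    exact Finset.sum_nonneg fun k _ => mul_nonneg (hnn k) (by simp)
  have key : ∀ x : ℝ, 0 < x → x ≤ 1 → 1 ≤ x * (4 ^ n * M) := by
    intro x hx hx1
    have hR1 := Yf_ge_one (sq_nonneg x)
    have hRs := Yf_sq (sq_nonneg x)
    rw [Real.sqrt_sq hx.le] at hRs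
    obtain ⟨R, hR⟩ : ∃ R, R = Yf (x ^ 2) := ⟨_, rfl⟩
    have hR2le : R ≤ x + 1 := by rw [hR]; exact Yf_sq_le hx.le
    rw [← hR] at hR1 hRs
    have hR2 : 1 < R := by
      rcases lt_or_eq_of_le hR1 with h2 | h2
      · exact h2
      · rw [← h2] at hRs
        linarith
    have hrR : x = R - R⁻¹ := by
      field_simp
      linarith
    have h2 := lo h hR2 hrR n w hw hf
    rw [← hp, real_half hev x] at h2
    have h3 : x ^ n ≤ 4 ^ n * (x ^ (n + 1) * M) := by
      have h4 : x ^ n ≤ x ^ n * R ^ w.length := by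
        have : 1 ≤ R ^ w.length := one_le_pow₀ hR1
        have h5 : 0 ≤ x ^ n := by positivity
        nlinarith
      refine h4.trans (h2.trans ?_)
      have h5 : R ^ (2 * n) ≤ 4 ^ n := by
        rw [pow_mul]
        exact pow_le_pow_left₀ (by positivity) (by nlinarith) n
      have h6 : (half p).eval (x ^ 2) ≤ M := by
        rw [hM, eval_eq_sum_range, eval_eq_sum_range]
        refine Finset.sum_le_sum fun k _ => mul_le_mul_of_nonneg_left ?_ (hnn k)
        exact pow_le_pow_left₀ (by positivity) (pow_le_one₀ hx.le hx1) k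
      have h7 : 0 ≤ (half p).eval (x ^ 2) := by
        rw [eval_eq_sum_range]
        exact Finset.sum_nonneg fun k _ => mul_nonneg (hnn k) (by positivity)
      have h8 : x ^ p.natTrailingDegree ≤ x ^ (n + 1) := pow_le_pow_of_le_one hx.le hx1 hcon
      exact mul_le_mul h5 (mul_le_mul h8 h6 h7 (by positivity)) (by positivity) (by positivity)
    have h4 : 0 < x ^ n := by positivity
    refine le_of_mul_le_mul_left ?_ h4
    calc x ^ n * 1 = x ^ n := mul_one _
      _ ≤ 4 ^ n * (x ^ (n + 1) * M) := h3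
      _ = x ^ n * (x * (4 ^ n * M)) := by ring
  have hx : 0 < 1 / (4 ^ n * M + 1) := by positivity
  have h2 := key (1 / (4 ^ n * M + 1)) hx (by
    rw [div_le_one (by positivity)]
    have : 0 ≤ 4 ^ n * M := by positivity
    linarith)
  rw [one_div, inv_mul_eq_div, le_div_iff₀ (by positivity)] at h2
  linarith

/-- values of `half p` are nonnegative and increasing -/
theorem half_eval_mono {P : ℝ[X]} (hnn : ∀ k, 0 ≤ P.coeff k) {r t : ℝ} (hr : 0 ≤ r) (h : r ≤ t) : P.eval r ≤ P.eval t := by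
  rw [eval_eq_sum_range, eval_eq_sum_range]
  refine Finset.sum_le_sum fun k _ => mul_le_mul_of_nonneg_left ?_ (hnn k)
  exact pow_le_pow_left₀ hr h k

theorem norm_aeval_le {P : ℝ[X]} (hnn : ∀ k, 0 ≤ P.coeff k) {r θ : ℝ} (hr : 0 ≤ r) : ‖aeval (EVC.pt r θ) P‖ ≤ P.eval r := by
  rw [aeval_eq_sum_range, eval_eq_sum_range]
  refine (norm_sum_le _ _).trans (Finset.sum_le_sum fun k _ => ?_)
  unfold EVC.pt
  rw [norm_smul, norm_pow, norm_mul, Complex.norm_exp_ofReal_mul_I, mul_one, Complex.norm_real, Real.norm_of_nonneg hr,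
    Real.norm_of_nonneg (hnn k)]

theorem one_le_eval {P : ℝ[X]} (hnn : ∀ k, 0 ≤ P.coeff k) (h1 : 1 ≤ P.coeff 0) {r : ℝ} (hr : 0 ≤ r) : 1 ≤ P.eval r := by
  rw [eval_eq_sum_range]
  have h2 : P.coeff 0 * r ^ 0 ≤ ∑ i ∈ Finset.range (P.natDegree + 1), P.coeff i * r ^ i :=
    Finset.single_le_sum (f := fun i => P.coeff i * r ^ i) (fun i _ => mul_nonneg (hnn i) (pow_nonneg hr i)) (by simp)
  rw [pow_zero, mul_one] at h2
  linarith

/-- the absolute rate -/
noncomputable def kap : ℝ := 1 / 1100000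

theorem sqrt600 : √(600 : ℝ) ≤ 25 := by
  rw [Real.sqrt_le_left (by norm_num)]
  norm_num

/-- **The lower bound.** -/
theorem lo_half (h : Mk G sg N) {n : ℕ} {w : List ℕ} (hw : ∀ a ∈ w, a < n) (hf : ∀ a < n, a ∈ w) (hL : 3 ≤ w.length)
    {r : ℝ} (hr : 0 < r) (hr6 : r ≤ 600) :
    Real.exp (w.length * EVC.A r - EE n w.length) ≤ (half (N n (V (sg n) w))).eval r := by
  obtain ⟨p, hp⟩ : ∃ p, p = N n (V (sg n) w) := ⟨_, rfl⟩
  obtain ⟨h0, -, hnn, h1, -, hev, -⟩ := word h hw hf hp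
  have htr := trailing_le h hw hf
  rw [← hp] at htr ⊢
  obtain ⟨L, hLd⟩ : ∃ L, L = w.length := ⟨_, rfl⟩
  rw [← hLd] at hL ⊢
  have hLR : (3 : ℝ) ≤ L := by exact_mod_cast hL
  have hlog : 1 ≤ Real.log L := by
    rw [Real.le_log_iff_exp_le (by linarith)]
    have := Real.exp_one_lt_d9
    linarith
  have hn0 : (0 : ℝ) ≤ n := Nat.cast_nonneg n
  have hEE : 12 * (n + 1) ≤ EE n L := by
    unfold EE
    nlinarith
  obtain ⟨x, hx⟩ : ∃ x, x = √r := ⟨_, rfl⟩
  have hx0 : 0 < x := by rw [hx]; exact Real.sqrt_pos.2 hr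
  have hx2 : x ^ 2 = r := by rw [hx]; exact Real.sq_sqrt hr.le
  rcases le_or_gt (L * x) 1 with hsmall | hbig
  · -- small radii
    have h2 := one_le_eval hnn h1 hr.le
    refine le_trans ?_ h2
    rw [Real.exp_le_one_iff]
    have h3 := A_le r
    rw [← hx] at h3
    have h4 : L * EVC.A r ≤ L * (x / 2) := mul_le_mul_of_nonneg_left h3 (by linarith)
    nlinarith
  · have hR1 := Yf_ge_one (sq_nonneg x)
    have hRs := Yf_sq (sq_nonneg x)
    rw [Real.sqrt_sq hx0.le] at hRs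
    obtain ⟨R, hR⟩ : ∃ R, R = Yf (x ^ 2) := ⟨_, rfl⟩
    have hR2le : R ≤ x + 1 := by rw [hR]; exact Yf_sq_le hx0.le
    rw [← hR] at hR1 hRs
    have hR2 : 1 < R := by
      rcases lt_or_eq_of_le hR1 with h2 | h2
      · exact h2
      · rw [← h2] at hRs
        linarith
    have hrR : x = R - R⁻¹ := by
      field_simp
      linarith
    have h2 := lo h hR2 hrR n w hw hf
    rw [← hp, real_half hev x, hx2, ← hLd] at h2
    obtain ⟨o, ho⟩ : ∃ o, o = p.natTrailingDegree := ⟨_, rfl⟩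
    rw [← ho] at h2 htr
    have h3 : x ^ (n - o) * R ^ L ≤ R ^ (2 * n) * (half p).eval r := by
      have h4 : 0 < x ^ o := by positivity
      refine le_of_mul_le_mul_left ?_ h4
      calc x ^ o * (x ^ (n - o) * R ^ L) = x ^ n * R ^ L := by
            rw [← mul_assoc, ← pow_add, Nat.add_sub_cancel' htr]
        _ ≤ _ := h2
        _ = x ^ o * (R ^ (2 * n) * (half p).eval r) := by ring
    have hRL : R ^ L = Real.exp (L * EVC.A r) := by rw [hR, hx2, Yf_pow hr.le]
    -- `x ^ (n - o) ≥ exp (- n log L)`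
    have h4 : Real.exp (-(n * Real.log L)) ≤ x ^ (n - o) := by
      have h5 : (L : ℝ)⁻¹ ≤ x := by
        rw [inv_le_iff_one_le_mul₀ (by linarith)]
        linarith
      have h6 : Real.exp (-(n * Real.log L)) = ((L : ℝ)⁻¹) ^ n := by
        rw [← mul_neg, ← Real.log_inv, ← Real.log_pow, Real.exp_log (by positivity)]
      rw [h6]
      have h7 : (L : ℝ)⁻¹ ≤ 1 := inv_le_one_of_one_le₀ (by linarith)
      calc ((L : ℝ)⁻¹) ^ n ≤ ((L : ℝ)⁻¹) ^ (n - o) := pow_le_pow_of_le_one (by positivity) h7 (by omega)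
        _ ≤ _ := pow_le_pow_left₀ (by positivity) h5 _
    have h5 : R ^ (2 * n) ≤ Real.exp (7 * n) := by
      have h6 : x ≤ 25 := by
        rw [hx]
        exact (Real.sqrt_le_sqrt hr6).trans sqrt600
      have h7 : R ^ 2 ≤ Real.exp 7 := by
        have h8 : R ^ 2 ≤ 676 := by nlinarith
        have h9 : (676 : ℝ) ≤ Real.exp 7 := by
          have h10 : Real.exp 7 = Real.exp 1 ^ 7 := by
            rw [← Real.exp_nat_mul]
            norm_num
          have h11 := Real.exp_one_gt_d9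
          rw [h10]
          calc (676 : ℝ) ≤ 2.7 ^ 7 := by norm_num
            _ ≤ _ := pow_le_pow_left₀ (by norm_num) (by linarith) 7
        linarith
      rw [pow_mul]
      have h8 : Real.exp (7 * n) = Real.exp 7 ^ n := by
        rw [← Real.exp_nat_mul]
        congr 1
        ring
      rw [h8]
      exact pow_le_pow_left₀ (by positivity) h7 n
    have hP0 : 0 ≤ (half p).eval r := zero_le_one.trans (one_le_eval hnn h1 hr.le)
    have h6 : Real.exp (-(n * Real.log L)) * Real.exp (L * EVC.A r) ≤ Real.exp (7 * n) * (half p).eval r := by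
      rw [hRL] at h3
      calc Real.exp (-(n * Real.log L)) * Real.exp (L * EVC.A r) ≤ x ^ (n - o) * Real.exp (L * EVC.A r) :=
            mul_le_mul_of_nonneg_right h4 (Real.exp_pos _).le
        _ ≤ _ := h3
        _ ≤ _ := mul_le_mul_of_nonneg_right h5 hP0
    have h7 : Real.exp (-(7 * n)) * (Real.exp (-(n * Real.log L)) * Real.exp (L * EVC.A r)) ≤ (half p).eval r := by
      have h8 : Real.exp (-(7 * n)) * Real.exp (7 * n) = 1 := by
        rw [← Real.exp_add, neg_add_cancel, Real.exp_zero]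
      calc Real.exp (-(7 * n)) * (Real.exp (-(n * Real.log L)) * Real.exp (L * EVC.A r)) ≤
            Real.exp (-(7 * n)) * (Real.exp (7 * n) * (half p).eval r) :=
            mul_le_mul_of_nonneg_left h6 (Real.exp_pos _).le
        _ = (half p).eval r := by rw [← mul_assoc, h8, one_mul]
    refine le_trans ?_ h7
    rw [← Real.exp_add, ← Real.exp_add]
    apply Real.exp_le_exp.2
    have h8 : 7 * (n : ℝ) + n * Real.log L ≤ EE n L := by
      unfold EE
      nlinarith
    linarith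

/-- the point on the `z` side -/
theorem exists_z {r θ : ℝ} (hr : 0 < r) (hθ : |θ| ≤ Real.pi) : ∃ z : ℂ, z ≠ 0 ∧ z ^ 2 = EVC.pt r θ ∧ ‖z‖ = √r ∧
    Real.cos (2 * z.arg) = Real.cos θ := by
  have hs : 0 < √r := Real.sqrt_pos.2 hr
  obtain ⟨z, hz⟩ : ∃ z : ℂ, z = ((√r : ℝ) : ℂ) * (Real.cos (θ / 2) + Real.sin (θ / 2) * Complex.I) := ⟨_, rfl⟩
  have habs := abs_le.1 hθ
  have harg : z.arg = if θ / 2 = -Real.pi then Real.pi else θ / 2 := by
    rw [if_neg (by linarith [Real.pi_pos])]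
    rw [hz]
    have := Complex.arg_mul_cos_add_sin_mul_I hs (θ := θ / 2) ⟨by linarith [Real.pi_pos], by linarith [Real.pi_pos]⟩
    simpa using this
  rw [if_neg (by linarith [Real.pi_pos])] at harg
  have he : (Real.cos (θ / 2) : ℂ) + Real.sin (θ / 2) * Complex.I = Complex.exp ((θ / 2 : ℝ) * Complex.I) := by
    rw [Complex.exp_mul_I]
    push_cast
    rfl
  refine ⟨z, ?_, ?_, ?_, ?_⟩
  · rw [hz, he]
    exact mul_ne_zero (by exact_mod_cast hs.ne') (Complex.exp_ne_zero _)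
  · rw [hz, he, mul_pow, ← Complex.exp_nat_mul, ← Complex.ofReal_pow, Real.sq_sqrt hr.le]
    unfold EVC.pt
    congr 2
    push_cast
    ring
  · rw [hz, he, norm_mul, Complex.norm_real, Complex.norm_exp_ofReal_mul_I, mul_one, Real.norm_of_nonneg hs.le]
  · rw [harg]
    congr 1
    ring

theorem exp_ge {a b : ℝ} (ha : 1 ≤ a) (k : ℕ) (hb : b ≤ 2.7 ^ k) (hk : (k : ℝ) ≤ a) : b ≤ Real.exp a := by
  have h11 := Real.exp_one_gt_d9
  have h10 : Real.exp k = Real.exp 1 ^ k := by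
    rw [← Real.exp_nat_mul, mul_one]
  calc b ≤ 2.7 ^ k := hb
    _ ≤ Real.exp 1 ^ k := pow_le_pow_left₀ (by norm_num) (by linarith) k
    _ = Real.exp k := h10.symm
    _ ≤ Real.exp a := Real.exp_le_exp.2 hk

theorem two_pow_le (n : ℕ) : (2 : ℝ) ^ n ≤ Real.exp n := by
  have h11 := Real.exp_one_gt_d9
  have h10 : Real.exp n = Real.exp 1 ^ n := by
    rw [← Real.exp_nat_mul, mul_one]
  rw [h10]
  exact pow_le_pow_left₀ (by norm_num) (by linarith) n

theorem inv_pow_le {L : ℕ} (hL : 1 ≤ L) {x : ℝ} (hx : 1 ≤ L * x) (hx0 : 0 < x) {o n : ℕ} (ho : o ≤ n) {a : ℝ} (ha : 0 ≤ a) {B : ℝ}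
    (h : x ^ o * a ≤ B) (hB : 0 ≤ B) : a ≤ Real.exp (n * Real.log L) * B := by
  have hL0 : (0 : ℝ) < L := by exact_mod_cast hL
  have hL1 : (1 : ℝ) ≤ L := by exact_mod_cast hL
  have h1 : Real.exp (n * Real.log L) = (L : ℝ) ^ n := by
    rw [← Real.log_pow, Real.exp_log (by positivity)]
  rw [h1]
  have h2 : a ≤ (L * x) ^ o * a := by
    have : 1 ≤ (L * x) ^ o := one_le_pow₀ hx
    nlinarith
  calc a ≤ (L * x) ^ o * a := h2
    _ = (L : ℝ) ^ o * (x ^ o * a) := by rw [mul_pow]; ring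
    _ ≤ (L : ℝ) ^ o * B := mul_le_mul_of_nonneg_left h (by positivity)
    _ ≤ (L : ℝ) ^ n * B := mul_le_mul_of_nonneg_right (pow_le_pow_right₀ hL1 ho) hB

/-- **The upper bound.** -/
theorem hi_half (h : Mk G sg N) {n : ℕ} {w : List ℕ} (hw : ∀ a ∈ w, a < n) (hf : ∀ a < n, a ∈ w) (hL : 3 ≤ w.length)
    {r θ : ℝ} (hr : 0 < r) (hr6 : r ≤ 600) (hθ : |θ| ≤ Real.pi) :
    ‖aeval (EVC.pt r θ) (half (N n (V (sg n) w)))‖ ≤
      Real.exp (w.length * EVC.A r + EE n w.length - kap * (w.length * √r) * (1 - Real.cos θ)) := by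
  obtain ⟨p, hp⟩ : ∃ p, p = N n (V (sg n) w) := ⟨_, rfl⟩
  obtain ⟨h0, -, hnn, h1, -, hev, -⟩ := word h hw hf hp
  have htr := trailing_le h hw hf
  have hup := fun z hz => upperD hUD h hw (n := n) z hz
  rw [← hp] at htr hup ⊢
  obtain ⟨L, hLd⟩ : ∃ L, L = w.length := ⟨_, rfl⟩
  rw [← hLd] at hL hup ⊢
  have hLR : (3 : ℝ) ≤ L := by exact_mod_cast hL
  have hlog : 1 ≤ Real.log L := by
    rw [Real.le_log_iff_exp_le (by linarith)]
    have := Real.exp_one_lt_d9
    linarith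
  have hn0 : (0 : ℝ) ≤ n := Nat.cast_nonneg n
  have hE1 : 11 + n + n * Real.log L ≤ EE n L - 1 := by
    unfold EE
    nlinarith
  obtain ⟨x, hx⟩ : ∃ x, x = √r := ⟨_, rfl⟩
  have hx0 : 0 < x := by rw [hx]; exact Real.sqrt_pos.2 hr
  have hx2 : x ^ 2 = r := by rw [hx]; exact Real.sq_sqrt hr.le
  have hcos : 0 ≤ 1 - Real.cos θ := by linarith [Real.cos_le_one θ]
  have hcos2 : 1 - Real.cos θ ≤ 2 := by linarith [Real.neg_one_le_cos θ]
  have hkap : 0 < kap := by unfold kap; norm_num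
  rw [← hx]
  rcases le_or_gt (L * x) 1 with hsmall | hbig
  · -- small radii
    have hA := A_nonneg r
    have hLA : 0 ≤ L * EVC.A r := mul_nonneg (by linarith) hA
    obtain ⟨y, hy⟩ : ∃ y : ℝ, y = (L : ℝ)⁻¹ := ⟨_, rfl⟩
    have hy0 : 0 < y := by rw [hy]; positivity
    have hLy : L * y = 1 := by rw [hy]; exact mul_inv_cancel₀ (by linarith)
    have hy1 : y ≤ 1 := by rw [hy]; exact inv_le_one_of_one_le₀ (by linarith)
    have hry : r ≤ y ^ 2 := by
      rw [← hx2]
      have : x ≤ y := by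
        have : L * x ≤ L * y := by rw [hLy]; exact hsmall
        exact le_of_mul_le_mul_left this (by linarith)
      exact pow_le_pow_left₀ hx0.le this 2
    have h2 := (norm_aeval_le (θ := θ) hnn hr.le).trans (half_eval_mono hnn hr.le hry)
    have h3 := hup (y : ℂ) (by exact_mod_cast hy0.ne')
    rw [Complex.norm_real, Real.norm_of_nonneg hy0.le, Complex.arg_ofReal_of_nonneg hy0.le, mul_zero, Real.cos_zero, sub_self,
      mul_zero, zero_div, mul_zero, neg_zero, Real.exp_zero, mul_one, Yf_pow (by positivity)] at h3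
    have h4 : ‖aeval (y : ℂ) p‖ = y ^ p.natTrailingDegree * (half p).eval (y ^ 2) := by
      have h5 : aeval (y : ℂ) p = ((aeval y p : ℝ) : ℂ) := by
        have := aeval_algebraMap_apply (A := ℝ) (B := ℂ) (x := y) (p := p)
        simpa using this
      rw [h5, real_half hev y, Complex.norm_real, Real.norm_of_nonneg]
      exact mul_nonneg (by positivity) (zero_le_one.trans (one_le_eval hnn h1 (by positivity)))
    rw [h4] at h3
    have h5 : L * EVC.A (y ^ 2) ≤ 1 := by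
      have h6 := A_le (y ^ 2)
      rw [Real.sqrt_sq hy0.le] at h6
      have h7 : L * EVC.A (y ^ 2) ≤ L * (y / 2) := mul_le_mul_of_nonneg_left h6 (by linarith)
      linarith
    have h6 : 96 * (y ^ 2 + 1) * 2 ^ n * Real.exp (L * EVC.A (y ^ 2)) ≤ Real.exp (11 + n) := by
      rw [Real.exp_add]
      have h7 := two_pow_le n
      have h8 : 96 * (y ^ 2 + 1) * Real.exp (L * EVC.A (y ^ 2)) ≤ Real.exp 11 := by
        have h9 : Real.exp (L * EVC.A (y ^ 2)) ≤ 2.72 := by
          have := Real.exp_one_lt_d9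
          exact (Real.exp_le_exp.2 h5).trans (by linarith)
        have h10 : (600 : ℝ) ≤ Real.exp 11 := exp_ge (by norm_num) 11 (by norm_num) (by norm_num)
        have h11 : y ^ 2 ≤ 1 := pow_le_one₀ hy0.le hy1
        have h12 : 0 < Real.exp (L * EVC.A (y ^ 2)) := Real.exp_pos _
        nlinarith
      calc 96 * (y ^ 2 + 1) * 2 ^ n * Real.exp (L * EVC.A (y ^ 2)) =
            (96 * (y ^ 2 + 1) * Real.exp (L * EVC.A (y ^ 2))) * 2 ^ n := by ring
        _ ≤ Real.exp 11 * Real.exp n := mul_le_mul h8 h7 (by positivity) (Real.exp_pos _).le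
    have h7 := inv_pow_le (by omega : 1 ≤ L) hLy.ge hy0 htr
      (zero_le_one.trans (one_le_eval hnn h1 (by positivity : (0 : ℝ) ≤ y ^ 2))) (h3.trans h6) (Real.exp_pos _).le
    refine h2.trans (h7.trans ?_)
    rw [← Real.exp_add]
    apply Real.exp_le_exp.2
    have h8 : kap * (L * x) * (1 - Real.cos θ) ≤ 1 := by
      have h9 : kap ≤ 1 / 2 := by unfold kap; norm_num
      have h10 : kap * (L * x) ≤ 1 / 2 * 1 := mul_le_mul h9 hsmall (by positivity) (by norm_num)
      have h11 : 0 ≤ kap * (L * x) := by positivity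
      nlinarith
    linarith
  · obtain ⟨z, hz0, hz2, hzn, hzc⟩ := exists_z hr hθ
    have h2 := hup z hz0
    rw [hev z, hz2, hzn, ← hx, hx2, hzc, norm_mul, norm_pow, hzn, ← hx, Yf_pow hr.le] at h2
    have hx25 : x ≤ 25 := by
      rw [hx]
      exact (Real.sqrt_le_sqrt hr6).trans sqrt600
    have hY1 := Yf_ge_one hr.le
    have hY2 : Yf r ≤ 26 := by
      have := Yf_sq_le hx0.le
      rw [hx2] at this
      linarith
    obtain ⟨Y, hY⟩ : ∃ Y, Y = Yf r := ⟨_, rfl⟩
    rw [← hY] at h2 hY1 hY2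
    have h3 : kap * (L * x) * (1 - Real.cos θ) ≤ L * (x * (1 - Real.cos θ) / (64 * Y * (r + 1))) := by
      have h4 : 64 * Y * (r + 1) ≤ 1100000 := by nlinarith
      have h5 : kap ≤ 1 / (64 * Y * (r + 1)) := by
        unfold kap
        exact one_div_le_one_div_of_le (by positivity) h4
      calc kap * (L * x) * (1 - Real.cos θ) ≤ 1 / (64 * Y * (r + 1)) * (L * x) * (1 - Real.cos θ) := by gcongr
        _ = _ := by ring
    have h4 : 96 * (r + 1) * 2 ^ n ≤ Real.exp (11 + n) := by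
      rw [Real.exp_add]
      have h7 := two_pow_le n
      have h8 : 96 * (r + 1) ≤ Real.exp 11 := by
        have h9 : 96 * (r + 1) ≤ 57696 := by linarith
        have h10 := Real.exp_one_gt_d9
        have h11 : Real.exp 11 = Real.exp 1 ^ 11 := by
          rw [← Real.exp_nat_mul]
          norm_num
        rw [h11]
        calc 96 * (r + 1) ≤ 57696 := h9
          _ ≤ 2.71828 ^ 11 := by norm_num
          _ ≤ _ := pow_le_pow_left₀ (by norm_num) (by linarith) 11
      exact mul_le_mul h8 h7 (by positivity) (Real.exp_pos _).le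
    have h5 : 96 * (r + 1) * 2 ^ n * (Real.exp (L * EVC.A r) *
        Real.exp (-(L * (x * (1 - Real.cos θ) / (64 * Y * (r + 1)))))) ≤
        Real.exp (11 + n + (L * EVC.A r - kap * (L * x) * (1 - Real.cos θ))) := by
      rw [← Real.exp_add, Real.exp_add (11 + n)]
      refine mul_le_mul h4 (Real.exp_le_exp.2 (by linarith)) (Real.exp_pos _).le (Real.exp_pos _).le
    have h6 := inv_pow_le (by omega : 1 ≤ L) hbig.le hx0 htr (norm_nonneg _) (h2.trans h5) (Real.exp_pos _).le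
    refine h6.trans ?_
    rw [← Real.exp_add]
    apply Real.exp_le_exp.2
    linarith

end words

end Pool.Agent.Helper29.PL
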