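import Pool.Agent.Helper29.PL.HPof
import Pool.Agent.Helper57.EV2.Half

/-!
# The threshold `D (n + 1) ^ 8`, from the sharp form of the core
-/

set_option autoImplicit false

namespace Pool.Agent.Helper29.PL

open Polynomial Pool.Agent.Helper76.Conway.Top Pool.Agent.Helper99.ZB Pool.Agent.Helper57.EV Pool.Agent.Helper10.PC

/-- the sharp form of the core, with its constant -/
def Core8 (C : ℝ) : Prop :=
  ∀ b κ ε E : ℝ, AdmP b κ ε E → 1 ≤ κ * b * Real.exp E → ∀ (L : ℕ) (P : ℝ[X]), HP b κ ε E L P →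
    C * E ≤ L * (κ ^ 3 * b ^ 2 * √ε) → ∀ k : ℕ, 1 ≤ k →
      P.coeff (k - 1) * P.coeff (k + 1) ≤ P.coeff k ^ 2

/-- `C₁ m ^ (a - 1) log L ≤ L` as soon as `L ≥ D m ^ a`, `D ^ 63 ≥ (64 C₁) ^ 64`, `a ≤ 64` -/
theorem arith8 {a : ℕ} (ha : 1 ≤ a) (ha64 : a ≤ 64) {C₁ D : ℝ} (hC : 0 ≤ C₁) (hD1 : 1 ≤ D)
    (hD : (64 * C₁) ^ 64 ≤ D ^ 63) {m L : ℝ} (hm : 1 ≤ m)
    (hL : D * m ^ a ≤ L) : C₁ * m ^ (a - 1) * Real.log L ≤ L := by
  have hone : (1 : ℝ) ≤ D * m ^ a := one_le_mul_of_one_le_of_one_le hD1 (one_le_pow₀ hm)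
  have hL0 : (1 : ℝ) ≤ L := hone.trans hL
  obtain ⟨y, hy⟩ : ∃ y : ℝ, y = L ^ ((1 : ℝ) / 64) := ⟨_, rfl⟩
  have hy1 : 1 ≤ y := by
    rw [hy]
    exact Real.one_le_rpow hL0 (by positivity)
  have hyL : y ^ 64 = L := by
    rw [hy, ← Real.rpow_natCast, ← Real.rpow_mul (by linarith)]
    norm_num
  have hlog : Real.log L ≤ 64 * y := by
    have h2 : Real.log y ≤ y := by
      have := Real.log_le_sub_one_of_pos (show 0 < y by linarith)
      linarith
    rw [← hyL, Real.log_pow]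
    push_cast
    linarith
  have h1 : 64 * C₁ * m ^ (a - 1) ≤ y ^ 63 := by
    apply le_of_pow_le_pow_left₀ (n := 64) (by norm_num) (by positivity)
    calc (64 * C₁ * m ^ (a - 1)) ^ 64 = (64 * C₁) ^ 64 * m ^ ((a - 1) * 64) := by
          rw [mul_pow, ← pow_mul]
      _ ≤ D ^ 63 * m ^ (a * 63) := by
          apply mul_le_mul hD (pow_le_pow_right₀ hm (by omega)) (by positivity) (by positivity)
      _ = (D * m ^ a) ^ 63 := by rw [mul_pow, ← pow_mul]
      _ ≤ L ^ 63 := pow_le_pow_left₀ (by positivity) hL _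
      _ = (y ^ 63) ^ 64 := by rw [← hyL, ← pow_mul, ← pow_mul]
  calc C₁ * m ^ (a - 1) * Real.log L ≤ C₁ * m ^ (a - 1) * (64 * y) :=
        mul_le_mul_of_nonneg_left hlog (by positivity)
    _ = 64 * C₁ * m ^ (a - 1) * y := by ring
    _ ≤ y ^ 63 * y := mul_le_mul_of_nonneg_right h1 (by linarith)
    _ = y ^ 64 := (pow_succ _ _).symm
    _ = L := hyL

variable {G : ℕ → Type} [∀ n, Group (G n)] {sg : ∀ n, ℕ → G n} {N : ∀ n, G n → ℤ[X]}

/-- from the inequality for `half` to the inequality for the Conway polynomial -/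
theorem coeff_of (h : Mk G sg N) {n : ℕ} {w : List ℕ} (hw : ∀ a ∈ w, a < n) (hf : ∀ a < n, a ∈ w)
    (hlc : ∀ k : ℕ, 1 ≤ k → (half (N n (V (sg n) w))).coeff (k - 1) * (half (N n (V (sg n) w))).coeff (k + 1) ≤
      (half (N n (V (sg n) w))).coeff k ^ 2) (k : ℕ) :
    (N n (V (sg n) w)).coeff (k + 4) * (N n (V (sg n) w)).coeff k ≤
      (N n (V (sg n) w)).coeff (k + 2) ^ 2 := by
  obtain ⟨h0, hpar, -, -, -, -, -⟩ := word h hw hf (p := N n (V (sg n) w)) rfl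
  rw [mul_comm]
  refine Pool.Agent.Helper57.EV2.lc_of ?_ h0 hlc k
  intro i j hi hj
  have h1 : ¬ (i + (w.length - n)) % 2 = 1 := fun h => hi (hpar i h)
  have h2 : ¬ (j + (w.length - n)) % 2 = 1 := fun h => hj (hpar j h)
  omega

theorem sqrt_en (n : ℕ) : √(en n) = 1 / (8 * ((n : ℝ) + 1) ^ 2) := by
  have h : en n = (1 / (8 * ((n : ℝ) + 1) ^ 2)) ^ 2 := by
    unfold en
    field_simp
    norm_num
  rw [h, Real.sqrt_sq (by positivity)]

theorem thr8 (h : Mk G sg N) {C : ℝ} (hC : 0 < C) (core : Core8 C) {D : ℕ} (hD4 : 100000000 ≤ D)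
    (hD : (64 * (C * (12 * 1100000 ^ 3 * 51200))) ^ 64 ≤ (D : ℝ) ^ 63) {n : ℕ} {w : List ℕ}
    (hw : ∀ a ∈ w, a < n) (hf : ∀ a < n, a ∈ w) (hlen : D * (n + 1) ^ 8 ≤ w.length) (k : ℕ) :
    (N n (V (sg n) w)).coeff (k + 4) * (N n (V (sg n) w)).coeff k ≤
      (N n (V (sg n) w)).coeff (k + 2) ^ 2 := by
  have h1 : 1 ≤ (n + 1) ^ 6 := Nat.one_le_pow _ _ (by omega)
  have h1' : 1 ≤ n + 1 := by omega
  have h4n : 100000000 * (n + 1) ^ 2 ≤ w.length := by
    calc 100000000 * (n + 1) ^ 2 ≤ D * (n + 1) ^ 2 := Nat.mul_le_mul_right _ hD4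
      _ ≤ D * (n + 1) ^ 2 * (n + 1) ^ 6 := Nat.le_mul_of_pos_right _ h1
      _ = D * (n + 1) ^ 8 := by ring
      _ ≤ w.length := hlen
  have h4n' : 100000000 * (n + 1) ≤ w.length := by nlinarith
  have hL3 : 3 ≤ w.length := by omega
  refine coeff_of h hw hf ?_ k
  have hn : (0 : ℝ) < (n : ℝ) + 1 := by positivity
  have hn1 : (1 : ℝ) ≤ (n : ℝ) + 1 := by
    have : (0 : ℝ) ≤ n := Nat.cast_nonneg n
    linarith
  have hLR : (100000000 : ℝ) * ((n : ℝ) + 1) ^ 2 ≤ w.length := by exact_mod_cast h4n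
  have hL1 : (1 : ℝ) ≤ w.length := by
    have := hn1
    nlinarith
  refine core _ _ _ _ (adm_of hL3) ?_ w.length _ (hp_of h hw hf hL3 (by omega)) ?_
  · have hE : (w.length : ℝ) ≤ Real.exp (EE n w.length) := by
      have h2 : Real.log w.length ≤ EE n w.length := by
        unfold EE
        have h3 : 0 ≤ Real.log w.length := Real.log_nonneg hL1
        nlinarith
      calc (w.length : ℝ) = Real.exp (Real.log w.length) := (Real.exp_log (by linarith)).symm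
        _ ≤ _ := Real.exp_le_exp.2 h2
    have h3 : kap * bn n = (88000000 * ((n : ℝ) + 1) ^ 2)⁻¹ := by
      unfold bn kap
      field_simp
      norm_num
    rw [h3, inv_mul_eq_div, le_div_iff₀ (by positivity), one_mul]
    nlinarith
  · have h2 := arith8 (a := 8) (by norm_num) (by norm_num) (C₁ := C * (12 * 1100000 ^ 3 * 51200)) (D := D) (by positivity)
      (by exact_mod_cast (show 1 ≤ D by omega)) hD (m := (n : ℝ) + 1) (L := w.length) hn1 (by exact_mod_cast hlen)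
    have e1 : (w.length : ℝ) * (kap ^ 3 * bn n ^ 2 * √(en n)) =
        w.length / (1100000 ^ 3 * 51200 * ((n : ℝ) + 1) ^ 6) := by
      rw [sqrt_en]
      unfold kap bn
      field_simp
      norm_num
    rw [e1, le_div_iff₀ (by positivity)]
    refine le_trans (le_of_eq ?_) h2
    unfold EE
    have e2 : 8 - 1 = 7 := rfl
    rw [e2]
    ring

end Pool.Agent.Helper29.PL
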