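import Pool.Agent.Helper29.PL.Thr6
import Pool.Agent.Helper2.PC.Braid6

/-!
# The threshold `10 ^ 59 (n + 1) ^ 6`
-/

set_option autoImplicit false

namespace Pool.Agent.Helper29.PL

open Polynomial Pool.Agent.Helper76.Conway.Top Pool.Agent.Helper99.ZB Pool.Agent.Helper57.EV Pool.Agent.Helper10.PC

variable {G : ℕ → Type} [∀ n, Group (G n)] {sg : ∀ n, ℕ → G n} {N : ∀ n, G n → ℤ[X]}

theorem core8 : Core8 (10 ^ 32) := fun _ _ _ _ hA hE1 _ _ h hL _ hk => Pool.Agent.Helper2.PC.corePoly8 hA hE1 h hL hk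

theorem fin6 (h : Mk G sg N) {n : ℕ} {w : List ℕ} (hw : ∀ a ∈ w, a < n) (hf : ∀ a < n, a ∈ w)
    (hlen : 10 ^ 59 * (n + 1) ^ 6 ≤ w.length) (k : ℕ) :
    (N n (V (sg n) w)).coeff (k + 4) * (N n (V (sg n) w)).coeff k ≤
      (N n (V (sg n) w)).coeff (k + 2) ^ 2 :=
  thr6 h (by norm_num) core8 (D := 10 ^ 59) (by norm_num) (by norm_num) hw hf hlen k

end Pool.Agent.Helper29.PL
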