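import Pool.Agent.Helper29.PL.LoHi
import Pool.Agent.Helper14.ND.Fields
import Pool.Agent.Helper10.PC.Defs

/-!
# The hypothesis of the core for all positive words
-/

set_option autoImplicit false

namespace Pool.Agent.Helper29.PL

open Polynomial Pool.Agent.Helper76.Conway.Top Pool.Agent.Helper99.ZB Pool.Agent.Helper57.EV Pool.Agent.Helper10.PC

variable {G : ℕ → Type} [∀ n, Group (G n)] {sg : ∀ n, ℕ → G n} {N : ∀ n, G n → ℤ[X]}

/-- distance from the positive axis -/
noncomputable def bn (n : ℕ) : ℝ := 1 / (80 * ((n : ℝ) + 1) ^ 2)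

/-- radius of the real roots -/
noncomputable def en (n : ℕ) : ℝ := 1 / (64 * ((n : ℝ) + 1) ^ 4)

theorem hp_of (h : Mk G sg N) {n : ℕ} {w : List ℕ} (hw : ∀ a ∈ w, a < n) (hf : ∀ a < n, a ∈ w) (hL : 3 ≤ w.length)
    (hLn : 4 * n ≤ w.length) : HP (bn n) kap (en n) (EE n w.length) w.length (half (N n (V (sg n) w))) := by
  obtain ⟨p, hp⟩ : ∃ p, p = N n (V (sg n) w) := ⟨_, rfl⟩
  obtain ⟨h0, -, hnn, h1, hdeg, hev, htop⟩ := word h hw hf hp
  refine { toNice := ⟨?_, ?_, ?_⟩, dist := ?_, near := ?_, far := ?_, lo := ?_, hi := ?_, top := ?_ }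
  · rw [← hp]; exact hnn
  · rw [← hp]; exact h1
  · rw [← hp]; exact hdeg
  · intro ρ hρ r hr
    exact Pool.Agent.Helper14.ND.dist_pos h hw hf hρ hr
  · intro ρ hρ hs
    exact Pool.Agent.Helper14.ND.near_sixty h hw hf hρ hs
  · intro ρ hρ
    obtain ⟨z, hz⟩ := IsAlgClosed.exists_pow_nat_eq ρ (n := 2) (by norm_num)
    have h2 : aeval ρ (half p) = 0 := by
      rw [← hp] at hρ
      unfold EVC.Z at hρ
      have h3 := (mem_roots'.1 hρ).2
      rw [IsRoot.def, eval_map_algebraMap] at h3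
      exact h3
    have h3 : aeval z p = 0 := by rw [hev z, hz, h2, mul_zero]
    rw [hp] at h3
    have h4 := zero_bound_eight h hw hf h3
    rw [← hz, norm_pow]
    exact h4
  · intro r hr hr6
    exact lo_half h hw hf hL hr hr6
  · intro r θ hr hr6 hθ
    exact hi_half h hw hf hL hr hr6 hθ
  · intro k hk hD
    rw [← hp] at hD ⊢
    obtain ⟨j, rfl⟩ : ∃ j, k = j + 1 := ⟨k - 1, by omega⟩
    have h2 := htop j (by
      have h3 : (65 : ℝ) * (half p).natDegree + 2 * n ≤ w.length + 65 * (j + 1) := by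
        have h4 : (4 : ℝ) * n ≤ w.length := by exact_mod_cast hLn
        have h5 : (0 : ℝ) ≤ w.length := Nat.cast_nonneg _
        push_cast at hD
        linarith
      exact_mod_cast h3)
    exact h2

theorem adm_of {n L : ℕ} (hL : 3 ≤ L) : AdmP (bn n) kap (en n) (EE n L) := by
  have hn : (0 : ℝ) ≤ n := Nat.cast_nonneg n
  have hLR : (3 : ℝ) ≤ L := by exact_mod_cast hL
  have hlog : 1 ≤ Real.log L := by
    rw [Real.le_log_iff_exp_le (by linarith)]
    have := Real.exp_one_lt_d9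
    linarith
  refine ⟨?_, ?_, ?_, ?_, ?_, ?_, ?_⟩
  · unfold bn; positivity
  · unfold bn
    rw [div_le_one (by positivity)]
    nlinarith
  · unfold kap; norm_num
  · unfold kap; norm_num
  · unfold en; positivity
  · unfold en
    rw [div_le_one (by positivity)]
    have : 1 ≤ ((n : ℝ) + 1) ^ 4 := one_le_pow₀ (by linarith)
    linarith
  · unfold EE
    nlinarith

end Pool.Agent.Helper29.PL
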