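import Pool.Agent.Helper29.PL.HPof
import Pool.Agent.Helper57.EV2.Half

/-!
# From the core with polynomial constants to a threshold `C (n + 1) ^ K`
-/

set_option autoImplicit false

namespace Pool.Agent.Helper29.PL

open Polynomial Pool.Agent.Helper76.Conway.Top Pool.Agent.Helper99.ZB Pool.Agent.Helper57.EV Pool.Agent.Helper10.PC

/-- the core with constants polynomial in the parameters -/
def Core (M : ℕ) : Prop :=
  ∃ C : ℝ, 0 < C ∧ ∀ b κ ε E : ℝ, AdmP b κ ε E → ∀ (L : ℕ) (P : ℝ[X]), HP b κ ε E L P →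
    C * E ^ 2 / ((κ * b) ^ M * ε) ≤ L → ∀ k : ℕ, 1 ≤ k →
      P.coeff (k - 1) * P.coeff (k + 1) ≤ P.coeff k ^ 2

theorem arith {K : ℕ} (hK : 2 ≤ K) (C₁ : ℝ) : ∃ C : ℕ, 4 ≤ C ∧ ∀ m L : ℕ, 1 ≤ m → C * m ^ K ≤ L →
    C₁ * (m : ℝ) ^ (K - 1) * Real.log L ^ 2 ≤ L := by
  obtain ⟨D, hD⟩ : ∃ D : ℕ, D = ⌈|C₁| * (16 * (K : ℝ) ^ 2)⌉₊ + 4 := ⟨_, rfl⟩
  have hD4 : 4 ≤ D := by omega
  have hDC : |C₁| * (16 * (K : ℝ) ^ 2) ≤ D := by
    rw [hD]
    push_cast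
    have := Nat.le_ceil (|C₁| * (16 * (K : ℝ) ^ 2))
    linarith
  refine ⟨D ^ K, ?_, ?_⟩
  · calc 4 ≤ D := hD4
      _ = D ^ 1 := (pow_one D).symm
      _ ≤ D ^ K := Nat.pow_le_pow_right (by omega) (by omega)
  intro m L hm hL
  have hm1 : (1 : ℝ) ≤ m := by exact_mod_cast hm
  have hD1 : (4 : ℝ) ≤ D := by exact_mod_cast hD4
  have hLR : (D : ℝ) ^ K * (m : ℝ) ^ K ≤ L := by exact_mod_cast hL
  have hKR : (2 : ℝ) ≤ K := by exact_mod_cast hK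
  have hone : (1 : ℝ) ≤ (D : ℝ) ^ K * (m : ℝ) ^ K :=
    one_le_mul_of_one_le_of_one_le (one_le_pow₀ (by linarith)) (one_le_pow₀ hm1)
  have hL0 : (1 : ℝ) ≤ L := hone.trans hLR
  obtain ⟨y, hy⟩ : ∃ y : ℝ, y = (L : ℝ) ^ ((1 : ℝ) / (2 * K)) := ⟨_, rfl⟩
  have hy1 : 1 ≤ y := by
    rw [hy]
    exact Real.one_le_rpow hL0 (by positivity)
  have hyL : y ^ (2 * K) = L := by
    rw [hy, ← Real.rpow_natCast, ← Real.rpow_mul (by linarith)]
    push_cast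
    rw [one_div_mul_cancel (by positivity), Real.rpow_one]
  have hlog : Real.log L ^ 2 ≤ 16 * (K : ℝ) ^ 2 * y := by
    obtain ⟨x, hx⟩ : ∃ x : ℝ, x = √y := ⟨_, rfl⟩
    have hxy : x ^ 2 = y := by rw [hx]; exact Real.sq_sqrt (by linarith)
    have hx0 : 0 < x := by rw [hx]; exact Real.sqrt_pos.2 (by linarith)
    have hx1 : 1 ≤ x := by
      rw [hx]
      exact Real.one_le_sqrt.2 hy1
    have h1 : Real.log L = 4 * K * Real.log x := by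
      rw [← hyL, ← hxy, Real.log_pow, Real.log_pow]
      push_cast
      ring
    have h2 : Real.log x ≤ x := by
      have := Real.log_le_sub_one_of_pos hx0
      linarith
    have h3 : 0 ≤ Real.log x := Real.log_nonneg hx1
    rw [h1, ← hxy]
    have h4 : Real.log x ^ 2 ≤ x ^ 2 := pow_le_pow_left₀ h3 h2 2
    calc (4 * K * Real.log x) ^ 2 = 16 * (K : ℝ) ^ 2 * Real.log x ^ 2 := by ring
      _ ≤ 16 * (K : ℝ) ^ 2 * x ^ 2 := mul_le_mul_of_nonneg_left h4 (by positivity)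
  have hyDm : (D : ℝ) * m ≤ y ^ 2 := by
    apply le_of_pow_le_pow_left₀ (n := K) (by omega) (by positivity)
    rw [mul_pow, ← pow_mul, hyL]
    exact hLR
  have hpow : (D : ℝ) * (m : ℝ) ^ (K - 1) ≤ y ^ (2 * (K - 1)) := by
    calc (D : ℝ) * (m : ℝ) ^ (K - 1) ≤ (D : ℝ) ^ (K - 1) * (m : ℝ) ^ (K - 1) := by
          apply mul_le_mul_of_nonneg_right _ (by positivity)
          calc (D : ℝ) = (D : ℝ) ^ 1 := (pow_one _).symm
            _ ≤ (D : ℝ) ^ (K - 1) := pow_le_pow_right₀ (by linarith) (by omega)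
      _ = ((D : ℝ) * m) ^ (K - 1) := (mul_pow _ _ _).symm
      _ ≤ (y ^ 2) ^ (K - 1) := pow_le_pow_left₀ (by positivity) hyDm _
      _ = y ^ (2 * (K - 1)) := (pow_mul _ _ _).symm
  calc C₁ * (m : ℝ) ^ (K - 1) * Real.log L ^ 2
      ≤ |C₁| * (m : ℝ) ^ (K - 1) * Real.log L ^ 2 := by
        apply mul_le_mul_of_nonneg_right _ (sq_nonneg _)
        exact mul_le_mul_of_nonneg_right (le_abs_self _) (by positivity)
    _ ≤ |C₁| * (m : ℝ) ^ (K - 1) * (16 * (K : ℝ) ^ 2 * y) :=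
        mul_le_mul_of_nonneg_left hlog (by positivity)
    _ = |C₁| * (16 * (K : ℝ) ^ 2) * ((m : ℝ) ^ (K - 1) * y) := by ring
    _ ≤ D * ((m : ℝ) ^ (K - 1) * y) := mul_le_mul_of_nonneg_right hDC (by positivity)
    _ = D * (m : ℝ) ^ (K - 1) * y := by ring
    _ ≤ y ^ (2 * (K - 1)) * y := mul_le_mul_of_nonneg_right hpow (by linarith)
    _ = y ^ (2 * (K - 1) + 1) := (pow_succ _ _).symm
    _ ≤ y ^ (2 * K) := pow_le_pow_right₀ hy1 (by omega)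
    _ = L := hyL

variable {G : ℕ → Type} [∀ n, Group (G n)] {sg : ∀ n, ℕ → G n} {N : ∀ n, G n → ℤ[X]}

theorem thr {M : ℕ} (core : Core M) : ∃ C : ℕ, ∀ (G : ℕ → Type) [∀ n, Group (G n)] (sg : ∀ n, ℕ → G n)
    (N : ∀ n, G n → ℤ[X]), Mk G sg N → ∀ (n : ℕ) (w : List ℕ), (∀ a ∈ w, a < n) → (∀ a < n, a ∈ w) →
      C * (n + 1) ^ (2 * M + 7) ≤ w.length → ∀ k : ℕ, 1 ≤ k →
        (half (N n (V (sg n) w))).coeff (k - 1) * (half (N n (V (sg n) w))).coeff (k + 1) ≤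
          (half (N n (V (sg n) w))).coeff k ^ 2 := by
  obtain ⟨C₀, hC₀, hcore⟩ := core
  obtain ⟨C, hC4, hC⟩ := arith (K := 2 * M + 7) (by omega) (C₀ * (9216 * 88000000 ^ M))
  refine ⟨C, ?_⟩
  intro G _ sg N h n w hw hf hlen
  have h1 : 1 ≤ (n + 1) ^ (2 * M + 6) := Nat.one_le_pow _ _ (by omega)
  have h4n : 4 * (n + 1) ≤ w.length := by
    calc 4 * (n + 1) ≤ C * (n + 1) := Nat.mul_le_mul_right _ hC4
      _ ≤ C * (n + 1) * (n + 1) ^ (2 * M + 6) := Nat.le_mul_of_pos_right _ h1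
      _ = C * (n + 1) ^ (2 * M + 7) := by ring
      _ ≤ w.length := hlen
  have hL3 : 3 ≤ w.length := by omega
  refine hcore _ _ _ _ (adm_of hL3) w.length _ (hp_of h hw hf hL3 (by omega)) ?_
  have h2 := hC (n + 1) w.length (by omega) hlen
  have e1 : 2 * M + 7 - 1 = 2 * M + 6 := by omega
  rw [e1] at h2
  push_cast at h2
  refine le_trans (le_of_eq ?_) h2
  have hn : (0 : ℝ) < (n : ℝ) + 1 := by positivity
  have e2 : kap * bn n = (88000000 * ((n : ℝ) + 1) ^ 2)⁻¹ := by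
    unfold bn kap
    field_simp
    norm_num
  rw [e2, inv_pow, mul_pow, ← pow_mul]
  have e3 : ((n : ℝ) + 1) ^ (2 * M + 6) = ((n : ℝ) + 1) ^ (2 * M) * ((n : ℝ) + 1) ^ 6 := pow_add _ _ _
  rw [e3]
  obtain ⟨A, hA⟩ : ∃ A : ℝ, A = ((n : ℝ) + 1) ^ (2 * M) := ⟨_, rfl⟩
  obtain ⟨B, hB⟩ : ∃ B : ℝ, B = (88000000 : ℝ) ^ M := ⟨_, rfl⟩
  have hA0 : 0 < A := by rw [hA]; positivity
  have hB0 : 0 < B := by rw [hB]; positivity
  rw [← hA, ← hB]
  unfold en EE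
  field_simp
  ring

theorem thr_coeff {M : ℕ} (core : Core M) : ∃ C : ℕ, ∀ (G : ℕ → Type) [∀ n, Group (G n)] (sg : ∀ n, ℕ → G n)
    (N : ∀ n, G n → ℤ[X]), Mk G sg N → ∀ (n : ℕ) (w : List ℕ), (∀ a ∈ w, a < n) → (∀ a < n, a ∈ w) →
      C * (n + 1) ^ (2 * M + 7) ≤ w.length → ∀ k : ℕ,
        (N n (V (sg n) w)).coeff (k + 4) * (N n (V (sg n) w)).coeff k ≤
          (N n (V (sg n) w)).coeff (k + 2) ^ 2 := by
  obtain ⟨C, hC⟩ := thr core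
  refine ⟨C, ?_⟩
  intro G _ sg N h n w hw hf hlen k
  obtain ⟨h0, hpar, -, -, -, -, -⟩ := word h hw hf (p := N n (V (sg n) w)) rfl
  rw [mul_comm]
  refine Pool.Agent.Helper57.EV2.lc_of ?_ h0 (hC G sg N h n w hw hf hlen) k
  intro i j hi hj
  have h1 : ¬ (i + (w.length - n)) % 2 = 1 := fun h => hi (hpar i h)
  have h2 : ¬ (j + (w.length - n)) % 2 = 1 := fun h => hj (hpar j h)
  omega

end Pool.Agent.Helper29.PL
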