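import Pool.Agent.Helper29.PL.Thr8
import Pool.Agent.Helper13.PC.Core
import Pool.Agent.Helper14.PC.Bulk7
import Pool.Agent.Helper7.PC.Exists

/-!
# The threshold `C (n + 1) ^ 20`
-/

set_option autoImplicit false

namespace Pool.Agent.Helper29.PL

open Polynomial Pool.Agent.Helper76.Conway.Top Pool.Agent.Helper99.ZB Pool.Agent.Helper57.EV Pool.Agent.Helper10.PC

theorem thr20 : ∃ D : ℕ, ∀ (G : ℕ → Type) [∀ n, Group (G n)] (sg : ∀ n, ℕ → G n)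
    (N : ∀ n, G n → ℤ[X]), Mk G sg N → ∀ (n : ℕ) (w : List ℕ), (∀ a ∈ w, a < n) → (∀ a < n, a ∈ w) →
      D * (n + 1) ^ 20 ≤ w.length → ∀ k : ℕ,
        (N n (V (sg n) w)).coeff (k + 4) * (N n (V (sg n) w)).coeff k ≤
          (N n (V (sg n) w)).coeff (k + 2) ^ 2 := by
  obtain ⟨C', -, hbulk⟩ := Pool.Agent.Helper14.PC.bulk7
  obtain ⟨C, hC, core⟩ := Pool.Agent.Helper13.PC.corePoly_of hbulk
    fun _ _ _ _ hA _ _ h _ _ hT hTL hk hk2 => Pool.Agent.Helper7.PC.exists_r hA h hT hTL hk hk2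
  obtain ⟨C₁, hC₁⟩ : ∃ C₁ : ℝ, C₁ = C * (12 * 88000000 ^ 7 * 640) := ⟨_, rfl⟩
  have hC₁0 : 0 < C₁ := by rw [hC₁]; positivity
  obtain ⟨D, hD⟩ : ∃ D : ℕ, D = ⌈(64 * C₁) ^ 2⌉₊ + 100 := ⟨_, rfl⟩
  have hD1 : (64 * C₁) ^ 2 ≤ D := by
    rw [hD]
    push_cast
    have := Nat.le_ceil ((64 * C₁) ^ 2)
    linarith
  have hD2 : (1 : ℝ) ≤ D := by
    rw [hD]
    push_cast
    have : (0 : ℝ) ≤ (⌈(64 * C₁) ^ 2⌉₊ : ℕ) := Nat.cast_nonneg _
    linarith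
  have hD3 : (64 * C₁) ^ 64 ≤ (D : ℝ) ^ 63 := by
    calc (64 * C₁) ^ 64 = ((64 * C₁) ^ 2) ^ 32 := by ring
      _ ≤ (D : ℝ) ^ 32 := pow_le_pow_left₀ (by positivity) hD1 _
      _ ≤ (D : ℝ) ^ 63 := pow_le_pow_right₀ hD2 (by norm_num)
  have hD100 : 100 ≤ D := by omega
  refine ⟨D, ?_⟩
  intro G _ sg N h n w hw hf hlen k
  have h1 : 1 ≤ (n + 1) ^ 19 := Nat.one_le_pow _ _ (by omega)
  have h4n : 100 * (n + 1) ≤ w.length := by
    calc 100 * (n + 1) ≤ D * (n + 1) := Nat.mul_le_mul_right _ hD100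
      _ ≤ D * (n + 1) * (n + 1) ^ 19 := Nat.le_mul_of_pos_right _ h1
      _ = D * (n + 1) ^ 20 := by ring
      _ ≤ w.length := hlen
  have hL3 : 3 ≤ w.length := by omega
  refine coeff_of h hw hf ?_ k
  have hn1 : (1 : ℝ) ≤ (n : ℝ) + 1 := by
    have : (0 : ℝ) ≤ n := Nat.cast_nonneg n
    linarith
  refine core _ _ _ _ (adm_of hL3) w.length _ (hp_of h hw hf hL3 (by omega)) ?_
  have h2 := arith8 (a := 20) (by norm_num) (by norm_num) (C₁ := C₁) (D := D) hC₁0.le hD2 hD3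
    (m := (n : ℝ) + 1) (L := w.length) hn1 (by exact_mod_cast hlen)
  have e1 : (w.length : ℝ) * ((kap * bn n) ^ 7 * bn n * √(en n)) =
      w.length / (88000000 ^ 7 * 640 * ((n : ℝ) + 1) ^ 18) := by
    rw [sqrt_en]
    unfold kap bn
    field_simp
    norm_num
  rw [e1, le_div_iff₀ (by positivity)]
  refine le_trans (le_of_eq ?_) h2
  unfold EE
  have e2 : 20 - 1 = 19 := rfl
  rw [e2, hC₁]
  ring

end Pool.Agent.Helper29.PL
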