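import Pool.Agent.Helper29.PL.Thr8
import Pool.Agent.Helper14.ND.Fields2
import Pool.Agent.Helper13.PC.Core8

/-!
# The threshold `D (n + 1) ^ (4 + j)` with an explicit constant `D`

`j` and `q` describe the disc `|t| < (1 / (q (n + 1) ^ j)) ^ 2` in which the roots are within 60 degrees of the
negative axis.
-/

set_option autoImplicit false

namespace Pool.Agent.Helper29.PL

open Polynomial Pool.Agent.Helper76.Conway.Top Pool.Agent.Helper99.ZB Pool.Agent.Helper57.EV Pool.Agent.Helper10.PC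

variable {G : ℕ → Type} [∀ n, Group (G n)] {sg : ∀ n, ℕ → G n} {N : ∀ n, G n → ℤ[X]}

/-- half angle of the zero free sector -/
noncomputable def bn2 (n : ℕ) : ℝ := 1 / (80 * ((n : ℝ) + 1))

theorem hp_of2 (h : Mk G sg N) {n : ℕ} {w : List ℕ} (hw : ∀ a ∈ w, a < n) (hf : ∀ a < n, a ∈ w) (hL : 3 ≤ w.length)
    (hLn : 4 * n ≤ w.length) {ε : ℝ}
    (hnear : ∀ ρ ∈ EVC.Z (half (N n (V (sg n) w))), ‖ρ‖ < ε → ρ.re < 0 ∧ ρ.im ^ 2 ≤ 3 * ρ.re ^ 2) :
    HP (bn2 n) kap ε (EE n w.length) w.length (half (N n (V (sg n) w))) := by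
  have h1 := hp_of h hw hf hL hLn
  exact { toNice := h1.toNice, dist := fun ρ hρ r hr => Pool.Agent.Helper14.ND.dist_pos2 h hw hf hρ hr
          near := hnear, far := h1.far, lo := h1.lo, hi := h1.hi, top := h1.top }

theorem thr_gen (h : Mk G sg N) {C : ℝ} (hC : 0 < C) (core : Core8 C) {D q j : ℕ} (hq : 1 ≤ q) (hD4 : 100000000 ≤ D)
    (hj : j ≤ 60)
    (hD : (64 * (C * (12 * 1100000 ^ 3 * (6400 * q)))) ^ 64 ≤ (D : ℝ) ^ 63) {n : ℕ} {w : List ℕ}
    (hw : ∀ a ∈ w, a < n) (hf : ∀ a < n, a ∈ w)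
    (hnear : ∀ ρ ∈ EVC.Z (half (N n (V (sg n) w))), ‖ρ‖ < (1 / (q * ((n : ℝ) + 1) ^ j)) ^ 2 →
      ρ.re < 0 ∧ ρ.im ^ 2 ≤ 3 * ρ.re ^ 2)
    (hlen : D * (n + 1) ^ (4 + j) ≤ w.length) (k : ℕ) :
    (N n (V (sg n) w)).coeff (k + 4) * (N n (V (sg n) w)).coeff k ≤
      (N n (V (sg n) w)).coeff (k + 2) ^ 2 := by
  have h1 : 1 ≤ (n + 1) ^ (3 + j) := Nat.one_le_pow _ _ (by omega)
  have h4n : 100000000 * (n + 1) ≤ w.length := by
    calc 100000000 * (n + 1) ≤ D * (n + 1) := Nat.mul_le_mul_right _ hD4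
      _ ≤ D * (n + 1) * (n + 1) ^ (3 + j) := Nat.le_mul_of_pos_right _ h1
      _ = D * (n + 1) ^ (4 + j) := by ring
      _ ≤ w.length := hlen
  have hL3 : 3 ≤ w.length := by omega
  refine coeff_of h hw hf ?_ k
  have hn : (0 : ℝ) < (n : ℝ) + 1 := by positivity
  have hn1 : (1 : ℝ) ≤ (n : ℝ) + 1 := by
    have : (0 : ℝ) ≤ n := Nat.cast_nonneg n
    linarith
  have hq1 : (1 : ℝ) ≤ q := by exact_mod_cast hq
  have hLR : (100000000 : ℝ) * ((n : ℝ) + 1) ≤ w.length := by exact_mod_cast h4n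
  have hL1 : (1 : ℝ) ≤ w.length := by
    have := hn1
    nlinarith
  have hA := adm_of (n := n) hL3
  have hden : (1 : ℝ) ≤ q * ((n : ℝ) + 1) ^ j := one_le_mul_of_one_le_of_one_le hq1 (one_le_pow₀ hn1)
  have hA2 : AdmP (bn2 n) kap ((1 / (q * ((n : ℝ) + 1) ^ j)) ^ 2) (EE n w.length) := by
    refine ⟨?_, ?_, hA.hκ, hA.hκ1, ?_, ?_, hA.hE⟩
    · unfold bn2; positivity
    · unfold bn2
      rw [div_le_one (by positivity)]
      linarith
    · positivity
    · refine pow_le_one₀ (by positivity) ?_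
      rw [div_le_one (by linarith)]
      exact hden
  refine core _ _ _ _ hA2 ?_ w.length _ (hp_of2 h hw hf hL3 (by omega) hnear) ?_
  · have hE : (w.length : ℝ) ≤ Real.exp (EE n w.length) := by
      have h2 : Real.log w.length ≤ EE n w.length := by
        unfold EE
        have h3 : 0 ≤ Real.log w.length := Real.log_nonneg hL1
        nlinarith
      calc (w.length : ℝ) = Real.exp (Real.log w.length) := (Real.exp_log (by linarith)).symm
        _ ≤ _ := Real.exp_le_exp.2 h2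
    have h3 : kap * bn2 n = (88000000 * ((n : ℝ) + 1))⁻¹ := by
      unfold bn2 kap
      field_simp
      norm_num
    rw [h3, inv_mul_eq_div, le_div_iff₀ (by positivity), one_mul]
    nlinarith
  · have h2 := arith8 (a := 4 + j) (by omega) (by omega) (C₁ := C * (12 * 1100000 ^ 3 * (6400 * q))) (D := D) (by positivity)
      (by exact_mod_cast (show 1 ≤ D by omega)) hD (m := (n : ℝ) + 1) (L := w.length) hn1 (by exact_mod_cast hlen)
    have e1 : (w.length : ℝ) * (kap ^ 3 * bn2 n ^ 2 * √((1 / (q * ((n : ℝ) + 1) ^ j)) ^ 2)) =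
        w.length / (1100000 ^ 3 * (6400 * q) * (((n : ℝ) + 1) ^ 2 * ((n : ℝ) + 1) ^ j)) := by
      rw [Real.sqrt_sq (by positivity)]
      unfold kap bn2
      field_simp
      norm_num
    rw [e1, le_div_iff₀ (by positivity)]
    refine le_trans (le_of_eq ?_) h2
    unfold EE
    have e2 : 4 + j - 1 = 1 + 2 + j := by omega
    rw [e2, pow_add, pow_add, pow_one]
    ring

/-- the exponent 6 -/
theorem thr6 (h : Mk G sg N) {C : ℝ} (hC : 0 < C) (core : Core8 C) {D : ℕ} (hD4 : 100000000 ≤ D)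
    (hD : (64 * (C * (12 * 1100000 ^ 3 * (6400 * 8)))) ^ 64 ≤ (D : ℝ) ^ 63) {n : ℕ} {w : List ℕ}
    (hw : ∀ a ∈ w, a < n) (hf : ∀ a < n, a ∈ w) (hlen : D * (n + 1) ^ 6 ≤ w.length) (k : ℕ) :
    (N n (V (sg n) w)).coeff (k + 4) * (N n (V (sg n) w)).coeff k ≤
      (N n (V (sg n) w)).coeff (k + 2) ^ 2 := by
  refine thr_gen h hC core (q := 8) (j := 2) (by norm_num) hD4 (by norm_num) (by exact_mod_cast hD) hw hf ?_ hlen k
  intro ρ hρ hs
  refine (hp_of h hw hf (by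
    have h1 : 1 ≤ (n + 1) ^ 6 := Nat.one_le_pow _ _ (by omega)
    nlinarith) (by
    have h1 : n + 1 ≤ (n + 1) ^ 6 := Nat.le_self_pow (by norm_num) _
    nlinarith)).near ρ hρ (hs.trans_le (le_of_eq ?_))
  unfold en
  push_cast
  field_simp
  norm_num

end Pool.Agent.Helper29.PL
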